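import Mathlib

set_option autoImplicit false

namespace Pool.Agent.Results.MP_dfec24_co.Counter

/-- the operation `S` on infinite binary words -/
def S (u : ℕ → ℕ) : ℕ → ℕ := fun n => (u n + u (n + 1)) % 2

/-- the generalized Thue-Morse word: digit sum in base `b` modulo 2 -/
def t (b : ℕ) : ℕ → ℕ := fun n => (Nat.digits b n).sum % 2

/-- a finite word is rich if it has `|w| + 1` distinct palindromic factors -/
def Rich (w : List ℕ) : Prop := {p : List ℕ | p <:+: w ∧ p.reverse = p}.ncard = w.length + 1

/-- an infinite word is rich if all its finite factors are rich -/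
def RichInf (u : ℕ → ℕ) : Prop := ∀ i n : ℕ, Rich ((List.range n).map fun j => u (i + j))

theorem pal_eq (w : List ℕ) : {p : List ℕ | p <:+: w ∧ p.reverse = p}
    = ↑((w.tails.flatMap List.inits).filter fun p => p.reverse = p).toFinset := by
  ext p
  simp [List.infix_iff_prefix_suffix, and_comm]

theorem result : ¬ ∀ b k : ℕ, 2 ≤ b → 1 ≤ k → RichInf (S^[k] (t b)) := by
  intro h
  have h1 := h 6 9 (by norm_num) (by norm_num) 0 34
  rw [Rich, pal_eq, Set.ncard_coe_finset] at h1
  revert h1
  decide +kernel

end Pool.Agent.Results.MP_dfec24_co.Counter
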